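import Pool.Agent.R339.TorG

namespace Pool.Agent.Results.MP_6e06a5_co.OddToroidalGrid

open R339.Tor

/-- On the `L × L` toroidal grid with `L ≥ 3` odd, for every set `D` of vertices of even
cardinality there is a `D`-join with the fewest edges in which every vertex of `D` has degree
exactly one. -/
theorem result (L : ℕ) (hL : 3 ≤ L) (hodd : Odd L) (D : Finset (ZMod L × ZMod L))
    (hD : Even D.card) : ∃ J, IsMinJoin L D J ∧ ∀ v ∈ D, jDegree J v = 1 :=
  main L hL hodd D hD

end Pool.Agent.Results.MP_6e06a5_co.OddToroidalGrid
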